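import Mathlib

set_option autoImplicit false

/-!
A finite perfect centreless group with a very large trivial layer in the middle:
block matrices
`[[h, x, s, r], [0, 1, u, t], [0, 0, h, w], [0, 0, 0, 1]]`
with `h` in `SL 2`, block sizes `2, m, 2, m`.
-/

namespace Pool.Agent.X233.NVL

open Matrix

/-- The block upper triangular matrices
`[[h, x, s, r], [0, 1, u, t], [0, 0, h, w], [0, 0, 0, 1]]`. -/
@[ext]
structure Grp (K : Type) [Field K] (m : ℕ) : Type where
  h : SpecialLinearGroup (Fin 2) K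
  x : Matrix (Fin 2) (Fin m) K
  u : Matrix (Fin m) (Fin 2) K
  w : Matrix (Fin 2) (Fin m) K
  s : Matrix (Fin 2) (Fin 2) K
  t : Matrix (Fin m) (Fin m) K
  r : Matrix (Fin 2) (Fin m) K

variable {K : Type} [Field K] {m : ℕ}

namespace Grp

instance : Mul (Grp K m) :=
  ⟨fun g g' =>
    { h := g.h * g'.h
      x := g.h.1 * g'.x + g.x
      u := g'.u + g.u * g'.h.1
      w := g.h.1 * g'.w + g.w
      s := g.h.1 * g'.s + g.x * g'.u + g.s * g'.h.1
      t := g'.t + g.u * g'.w + g.t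
      r := g.h.1 * g'.r + g.x * g'.t + g.s * g'.w + g.r }⟩

instance : One (Grp K m) := ⟨⟨1, 0, 0, 0, 0, 0, 0⟩⟩

instance : Inv (Grp K m) :=
  ⟨fun g =>
    { h := g.h⁻¹
      x := -(g.h⁻¹.1 * g.x)
      u := -(g.u * g.h⁻¹.1)
      w := -(g.h⁻¹.1 * g.w)
      s := g.h⁻¹.1 * g.x * g.u * g.h⁻¹.1 - g.h⁻¹.1 * g.s * g.h⁻¹.1
      t := -g.t + g.u * g.h⁻¹.1 * g.w
      r := -(g.h⁻¹.1 * (g.x * (-g.t + g.u * g.h⁻¹.1 * g.w) - g.s * g.h⁻¹.1 * g.w + g.r)) }⟩

@[simp] theorem mul_h (g g' : Grp K m) : (g * g').h = g.h * g'.h := rfl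
@[simp] theorem mul_x (g g' : Grp K m) : (g * g').x = g.h.1 * g'.x + g.x := rfl
@[simp] theorem mul_u (g g' : Grp K m) : (g * g').u = g'.u + g.u * g'.h.1 := rfl
@[simp] theorem mul_w (g g' : Grp K m) : (g * g').w = g.h.1 * g'.w + g.w := rfl
@[simp] theorem mul_s (g g' : Grp K m) :
    (g * g').s = g.h.1 * g'.s + g.x * g'.u + g.s * g'.h.1 := rfl
@[simp] theorem mul_t (g g' : Grp K m) : (g * g').t = g'.t + g.u * g'.w + g.t := rfl
@[simp] theorem mul_r (g g' : Grp K m) :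
    (g * g').r = g.h.1 * g'.r + g.x * g'.t + g.s * g'.w + g.r := rfl
@[simp] theorem one_h : (1 : Grp K m).h = 1 := rfl
@[simp] theorem one_x : (1 : Grp K m).x = 0 := rfl
@[simp] theorem one_u : (1 : Grp K m).u = 0 := rfl
@[simp] theorem one_w : (1 : Grp K m).w = 0 := rfl
@[simp] theorem one_s : (1 : Grp K m).s = 0 := rfl
@[simp] theorem one_t : (1 : Grp K m).t = 0 := rfl
@[simp] theorem one_r : (1 : Grp K m).r = 0 := rfl
@[simp] theorem inv_h (g : Grp K m) : g⁻¹.h = g.h⁻¹ := rfl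
@[simp] theorem inv_x (g : Grp K m) : g⁻¹.x = -(g.h⁻¹.1 * g.x) := rfl
@[simp] theorem inv_u (g : Grp K m) : g⁻¹.u = -(g.u * g.h⁻¹.1) := rfl
@[simp] theorem inv_w (g : Grp K m) : g⁻¹.w = -(g.h⁻¹.1 * g.w) := rfl
@[simp] theorem inv_s (g : Grp K m) : g⁻¹.s =
    g.h⁻¹.1 * g.x * g.u * g.h⁻¹.1 - g.h⁻¹.1 * g.s * g.h⁻¹.1 := rfl
@[simp] theorem inv_t (g : Grp K m) : g⁻¹.t = -g.t + g.u * g.h⁻¹.1 * g.w := rfl
@[simp] theorem inv_r (g : Grp K m) : g⁻¹.r =
    -(g.h⁻¹.1 * (g.x * (-g.t + g.u * g.h⁻¹.1 * g.w) - g.s * g.h⁻¹.1 * g.w + g.r)) := rfl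

theorem inv_mul_coe (h : SpecialLinearGroup (Fin 2) K) : h⁻¹.1 * h.1 = 1 :=
  congrArg Subtype.val (inv_mul_cancel h)

theorem mul_inv_coe (h : SpecialLinearGroup (Fin 2) K) : h.1 * h⁻¹.1 = 1 :=
  congrArg Subtype.val (mul_inv_cancel h)

theorem coe_mul' (h k : SpecialLinearGroup (Fin 2) K) : (h * k).1 = h.1 * k.1 := rfl

@[simp] theorem coe_one' : (1 : SpecialLinearGroup (Fin 2) K).1 = 1 := rfl

theorem inv_mul_assoc_coe {n : Type} [Fintype n] (h : SpecialLinearGroup (Fin 2) K)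
    (y : Matrix (Fin 2) n K) : h⁻¹.1 * (h.1 * y) = y := by
  rw [← Matrix.mul_assoc, inv_mul_coe, Matrix.one_mul]

theorem mul_inv_assoc_coe {n : Type} [Fintype n] (h : SpecialLinearGroup (Fin 2) K)
    (y : Matrix (Fin 2) n K) : h.1 * (h⁻¹.1 * y) = y := by
  rw [← Matrix.mul_assoc, mul_inv_coe, Matrix.one_mul]

instance : Group (Grp K m) :=
  Group.ofLeftAxioms
    (by
      intro a b c
      ext1
      · simp [mul_assoc]
      · simp only [mul_h, mul_x, coe_mul', Matrix.mul_add, Matrix.mul_assoc]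
        abel
      · simp only [mul_h, mul_u, coe_mul', Matrix.add_mul, Matrix.mul_assoc]
        abel
      · simp only [mul_h, mul_w, coe_mul', Matrix.mul_add, Matrix.mul_assoc]
        abel
      · simp only [mul_h, mul_x, mul_u, mul_s, coe_mul', Matrix.mul_add,
          Matrix.add_mul, Matrix.mul_assoc]
        abel
      · simp only [mul_u, mul_w, mul_t, Matrix.mul_add, Matrix.add_mul, Matrix.mul_assoc]
        abel
      · simp only [mul_h, mul_x, mul_s, mul_w, mul_t, mul_r, coe_mul',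
          Matrix.mul_add, Matrix.add_mul, Matrix.mul_assoc]
        abel)
    (by
      intro a
      ext1 <;> simp)
    (by
      intro a
      ext1
      · simp
      · simp only [mul_x, inv_h, inv_x, one_x]
        abel
      · simp only [mul_u, inv_u, one_u, Matrix.neg_mul, Matrix.mul_assoc, inv_mul_coe,
          Matrix.mul_one]
        abel
      · simp only [mul_w, inv_h, inv_w, one_w]
        abel
      · simp only [mul_s, inv_h, inv_x, inv_s, one_s, Matrix.neg_mul, Matrix.sub_mul,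
          Matrix.mul_assoc, inv_mul_coe, Matrix.mul_one]
        abel
      · simp only [mul_t, inv_u, inv_t, one_t, Matrix.neg_mul]
        abel
      · simp only [mul_r, inv_h, inv_x, inv_s, inv_r, one_r, Matrix.neg_mul, Matrix.sub_mul,
          Matrix.mul_add, Matrix.mul_sub, Matrix.mul_neg, Matrix.mul_assoc, inv_mul_assoc_coe]
        abel)

end Grp

end Pool.Agent.X233.NVL
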