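import Pool.Agent.X233.NVL.Grp

set_option autoImplicit false

namespace Pool.Agent.X233.NVL

open Matrix

namespace Grp

section general

variable {K : Type} [Field K] {m : ℕ}

/-- The element with only the `h`-component. -/
def H (h : SpecialLinearGroup (Fin 2) K) : Grp K m := ⟨h, 0, 0, 0, 0, 0, 0⟩
/-- The element with only the `x`-component. -/
def X (x : Matrix (Fin 2) (Fin m) K) : Grp K m := ⟨1, x, 0, 0, 0, 0, 0⟩
/-- The element with only the `u`-component. -/
def U (u : Matrix (Fin m) (Fin 2) K) : Grp K m := ⟨1, 0, u, 0, 0, 0, 0⟩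
/-- The element with only the `w`-component. -/
def W (w : Matrix (Fin 2) (Fin m) K) : Grp K m := ⟨1, 0, 0, w, 0, 0, 0⟩
/-- The element with only the `s`-component. -/
def S (s : Matrix (Fin 2) (Fin 2) K) : Grp K m := ⟨1, 0, 0, 0, s, 0, 0⟩
/-- The element with only the `t`-component. -/
def T (t : Matrix (Fin m) (Fin m) K) : Grp K m := ⟨1, 0, 0, 0, 0, t, 0⟩
/-- The element with only the `r`-component. -/
def R (r : Matrix (Fin 2) (Fin m) K) : Grp K m := ⟨1, 0, 0, 0, 0, 0, r⟩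

/-- The central involution `-1` of `SL 2`. -/
def negOne (K : Type) [Field K] : SpecialLinearGroup (Fin 2) K :=
  ⟨-1, by simp [Matrix.det_fin_two]⟩

theorem negOne_coe : (negOne K).1 = -1 := rfl

theorem mulH (a b : SpecialLinearGroup (Fin 2) K) : (H (a * b) : Grp K m) = H a * H b := by
  ext1 <;> simp [H]

theorem H_one : (H 1 : Grp K m) = 1 := rfl

theorem H_inv (a : SpecialLinearGroup (Fin 2) K) : (H a⁻¹ : Grp K m) = (H a)⁻¹ := by
  rw [eq_inv_iff_mul_eq_one, ← mulH, inv_mul_cancel, H_one]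

/-- `H` as a homomorphism. -/
def HHom : SpecialLinearGroup (Fin 2) K →* Grp K m where
  toFun := H
  map_one' := H_one
  map_mul' := mulH

theorem factor (g : Grp K m) (hg : g.h = 1) :
    g = R (g.r - g.x * (g.t - g.u * g.w) - g.s * g.w) * S (g.s - g.x * g.u) * X g.x *
      T (g.t - g.u * g.w) * U g.u * W g.w := by
  ext1
  · simp [R, S, X, T, U, W, hg]
  · simp [R, S, X, T, U, W]
  · simp [R, S, X, T, U, W]
  · simp [R, S, X, T, U, W]
  · simp [R, S, X, T, U, W]
  · simp [R, S, X, T, U, W]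
  · simp [R, S, X, T, U, W]
    abel

theorem Hcomm_X (y : Matrix (Fin 2) (Fin m) K) :
    H (negOne K) * X y * (H (negOne K))⁻¹ * (X y)⁻¹ = X (-(y + y)) := by
  rw [mul_inv_eq_iff_eq_mul, mul_inv_eq_iff_eq_mul]
  ext1 <;> simp [H, X, negOne_coe]

theorem Hcomm_W (y : Matrix (Fin 2) (Fin m) K) :
    H (negOne K) * W y * (H (negOne K))⁻¹ * (W y)⁻¹ = W (-(y + y)) := by
  rw [mul_inv_eq_iff_eq_mul, mul_inv_eq_iff_eq_mul]
  ext1 <;> simp [H, W, negOne_coe]

theorem Hcomm_R (y : Matrix (Fin 2) (Fin m) K) :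
    H (negOne K) * R y * (H (negOne K))⁻¹ * (R y)⁻¹ = R (-(y + y)) := by
  rw [mul_inv_eq_iff_eq_mul, mul_inv_eq_iff_eq_mul]
  ext1 <;> simp [H, R, negOne_coe]

theorem Hcomm_U (y : Matrix (Fin m) (Fin 2) K) :
    H (negOne K) * U y * (H (negOne K))⁻¹ * (U y)⁻¹ = U (-(y + y)) := by
  rw [mul_inv_eq_iff_eq_mul, mul_inv_eq_iff_eq_mul]
  ext1 <;> simp [H, U, negOne_coe]

theorem comm_XU (a : Matrix (Fin 2) (Fin m) K) (b : Matrix (Fin m) (Fin 2) K) :
    X a * U b * (X a)⁻¹ * (U b)⁻¹ = S (a * b) := by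
  rw [mul_inv_eq_iff_eq_mul, mul_inv_eq_iff_eq_mul]
  ext1 <;> simp [S, U, X]

theorem comm_UW (a : Matrix (Fin m) (Fin 2) K) (b : Matrix (Fin 2) (Fin m) K) :
    U a * W b * (U a)⁻¹ * (W b)⁻¹ = T (a * b) := by
  rw [mul_inv_eq_iff_eq_mul, mul_inv_eq_iff_eq_mul]
  ext1 <;> simp [T, U, W]

theorem S_add (a b : Matrix (Fin 2) (Fin 2) K) : (S (a + b) : Grp K m) = S a * S b := by
  ext1 <;> simp [S, add_comm]

theorem T_add (a b : Matrix (Fin m) (Fin m) K) : (T (a + b) : Grp K m) = T a * T b := by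
  ext1 <;> simp [T, add_comm]

theorem mem_comm (a b : Grp K m) : a * b * a⁻¹ * b⁻¹ ∈ commutator (Grp K m) :=
  Subgroup.commutator_mem_commutator (Subgroup.mem_top a) (Subgroup.mem_top b)

theorem S_mem (hm : 0 < m) (s : Matrix (Fin 2) (Fin 2) K) :
    (S s : Grp K m) ∈ commutator (Grp K m) := by
  induction s using Matrix.induction_on' with
  | h_zero => exact Subgroup.one_mem _
  | h_add p q hp hq => rw [S_add]; exact Subgroup.mul_mem _ hp hq
  | h_std_basis i j c =>
    have : (Matrix.single i j c : Matrix (Fin 2) (Fin 2) K) =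
        Matrix.single i (⟨0, hm⟩ : Fin m) c * Matrix.single (⟨0, hm⟩ : Fin m) j (1 : K) := by
      simp
    rw [this, ← comm_XU]
    exact mem_comm _ _

theorem T_mem (t : Matrix (Fin m) (Fin m) K) :
    (T t : Grp K m) ∈ commutator (Grp K m) := by
  induction t using Matrix.induction_on' with
  | h_zero => exact Subgroup.one_mem _
  | h_add p q hp hq => rw [T_add]; exact Subgroup.mul_mem _ hp hq
  | h_std_basis i j c =>
    have : (Matrix.single i j c : Matrix (Fin m) (Fin m) K) =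
        Matrix.single i (0 : Fin 2) c * Matrix.single (0 : Fin 2) j (1 : K) := by
      simp
    rw [this, ← comm_UW]
    exact mem_comm _ _

/-- The centre is trivial. -/
theorem center_eq_bot (hm : 0 < m) (h2 : (2 : K) ≠ 0) : Subgroup.center (Grp K m) = ⊥ := by
  rw [eq_bot_iff]
  intro z hz
  rw [Subgroup.mem_center_iff] at hz
  rw [Subgroup.mem_bot]
  have key : ∀ {α β : Type} (M : Matrix α β K), M = -M → M = 0 := by
    intro α β M hM
    ext i j
    have h := congrFun (congrFun hM i) j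
    rw [Matrix.neg_apply] at h
    have h' : (2 : K) * M i j = 0 := by linear_combination h
    simpa [h2] using h'
  ext1
  · -- h
    apply Subtype.ext
    ext i j
    have h := congrArg Grp.r (hz (R (Matrix.single j ⟨0, hm⟩ 1)))
    simp only [mul_r, R, Matrix.mul_zero, Matrix.zero_mul, coe_one', Matrix.one_mul, add_zero,
      zero_add] at h
    have h' := congrFun (congrFun h i) ⟨0, hm⟩
    simp only [Matrix.add_apply, one_h, coe_one'] at h' ⊢
    have h3 : (Matrix.single j (⟨0, hm⟩ : Fin m) (1 : K)) i ⟨0, hm⟩ =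
      (z.h.1 * Matrix.single j (⟨0, hm⟩ : Fin m) (1 : K)) i ⟨0, hm⟩ := by linear_combination h'
    rw [Matrix.mul_single_apply_same, mul_one] at h3
    rw [← h3, Matrix.single_apply, Matrix.one_apply]
    by_cases hij : i = j
    · simp [hij]
    · rw [if_neg hij, if_neg]
      rintro ⟨h, -⟩
      exact hij h.symm
  · have h := congrArg Grp.x (hz (H (negOne K)))
    simp only [mul_x, H, negOne_coe, Matrix.mul_zero, add_zero, zero_add, Matrix.neg_mul,
      Matrix.one_mul] at h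
    exact key _ h.symm
  · have h := congrArg Grp.u (hz (H (negOne K)))
    simp only [mul_u, H, negOne_coe, Matrix.mul_zero, add_zero, zero_add, Matrix.mul_neg,
      Matrix.mul_one, Matrix.zero_mul] at h
    exact key _ h
  · have h := congrArg Grp.w (hz (H (negOne K)))
    simp only [mul_w, H, negOne_coe, Matrix.mul_zero, add_zero, zero_add, Matrix.neg_mul,
      Matrix.one_mul] at h
    exact key _ h.symm
  · ext i j
    have h := congrArg Grp.r (hz (W (Matrix.single j ⟨0, hm⟩ 1)))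
    simp only [mul_r, W, Matrix.mul_zero, Matrix.zero_mul, coe_one', Matrix.one_mul, add_zero,
      zero_add] at h
    have h' := congrFun (congrFun h i) ⟨0, hm⟩
    simp only [Matrix.add_apply, Matrix.mul_single_apply_same, mul_one] at h'
    simp only [one_s, Matrix.zero_apply]
    linear_combination -h'
  · ext i j
    have h := congrArg Grp.r (hz (X (Matrix.single 0 i 1)))
    simp only [mul_r, X, Matrix.mul_zero, Matrix.zero_mul, coe_one', Matrix.one_mul, add_zero,
      zero_add] at h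
    have h' := congrFun (congrFun h 0) j
    simp only [Matrix.add_apply, Matrix.single_mul_apply_same, one_mul] at h'
    simp only [one_t, Matrix.zero_apply]
    linear_combination h'
  · have h := congrArg Grp.r (hz (H (negOne K)))
    simp only [mul_r, H, negOne_coe, Matrix.mul_zero, add_zero, zero_add, Matrix.neg_mul,
      Matrix.one_mul, Matrix.zero_mul] at h
    exact key _ h.symm

end general

section five

variable {m : ℕ}

instance : Fact (Nat.Prime 5) := ⟨by norm_num⟩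

/-- Upper transvection. -/
def up (y : ZMod 5) : SpecialLinearGroup (Fin 2) (ZMod 5) :=
  ⟨!![1, y; 0, 1], by simp [Matrix.det_fin_two_of]⟩

/-- Lower transvection. -/
def lo (y : ZMod 5) : SpecialLinearGroup (Fin 2) (ZMod 5) :=
  ⟨!![1, 0; y, 1], by simp [Matrix.det_fin_two_of]⟩

/-- The diagonal matrix with entries `2, 3`. -/
def dg : SpecialLinearGroup (Fin 2) (ZMod 5) :=
  ⟨!![2, 0; 0, 3], by rw [Matrix.det_fin_two_of]; decide⟩

theorem up_comm (y : ZMod 5) : dg * up (2 * y) * dg⁻¹ * (up (2 * y))⁻¹ = up y := by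
  rw [mul_inv_eq_iff_eq_mul, mul_inv_eq_iff_eq_mul]
  apply Subtype.ext
  show (!![2, 0; 0, 3] : Matrix (Fin 2) (Fin 2) (ZMod 5)) * !![1, 2 * y; 0, 1] =
    !![1, y; 0, 1] * !![1, 2 * y; 0, 1] * !![2, 0; 0, 3]
  revert y
  decide

theorem lo_comm (y : ZMod 5) : dg * lo (2 * y) * dg⁻¹ * (lo (2 * y))⁻¹ = lo y := by
  rw [mul_inv_eq_iff_eq_mul, mul_inv_eq_iff_eq_mul]
  apply Subtype.ext
  show (!![2, 0; 0, 3] : Matrix (Fin 2) (Fin 2) (ZMod 5)) * !![1, 0; 2 * y, 1] =
    !![1, 0; y, 1] * !![1, 0; 2 * y, 1] * !![2, 0; 0, 3]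
  revert y
  decide

theorem five_aux (y : ZMod 5) : -(2 * y + 2 * y) = y := by
  revert y
  decide

theorem sl_comm (a b : SpecialLinearGroup (Fin 2) (ZMod 5)) :
    a * b * a⁻¹ * b⁻¹ ∈ commutator (SpecialLinearGroup (Fin 2) (ZMod 5)) :=
  Subgroup.commutator_mem_commutator (Subgroup.mem_top a) (Subgroup.mem_top b)

theorem up_mem (y : ZMod 5) : up y ∈ commutator (SpecialLinearGroup (Fin 2) (ZMod 5)) := by
  rw [← up_comm]; exact sl_comm _ _

theorem lo_mem (y : ZMod 5) : lo y ∈ commutator (SpecialLinearGroup (Fin 2) (ZMod 5)) := by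
  rw [← lo_comm]; exact sl_comm _ _

theorem sl_mem_of_ne (M : SpecialLinearGroup (Fin 2) (ZMod 5)) (hc : M.1 1 0 ≠ 0) :
    M ∈ commutator (SpecialLinearGroup (Fin 2) (ZMod 5)) := by
  have hdet := M.2
  rw [Matrix.det_fin_two] at hdet
  have : M = up ((M.1 0 0 - 1) / M.1 1 0) * lo (M.1 1 0) * up ((M.1 1 1 - 1) / M.1 1 0) := by
    apply Subtype.ext
    show M.1 = !![1, (M.1 0 0 - 1) / M.1 1 0; 0, 1] * !![1, 0; M.1 1 0, 1] *
      !![1, (M.1 1 1 - 1) / M.1 1 0; 0, 1]
    ext i j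
    fin_cases i <;> fin_cases j
    · simp [Matrix.mul_apply, Fin.sum_univ_two]
      field_simp
      ring
    · simp [Matrix.mul_apply, Fin.sum_univ_two]
      field_simp
      linear_combination -hdet
    · simp [Matrix.mul_apply, Fin.sum_univ_two]
    · simp [Matrix.mul_apply, Fin.sum_univ_two]
      field_simp
      ring
  rw [this]
  exact Subgroup.mul_mem _ (Subgroup.mul_mem _ (up_mem _) (lo_mem _)) (up_mem _)

theorem sl_mem (M : SpecialLinearGroup (Fin 2) (ZMod 5)) :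
    M ∈ commutator (SpecialLinearGroup (Fin 2) (ZMod 5)) := by
  by_cases hc : M.1 1 0 = 0
  · have h1 : M = lo (-1) * (lo 1 * M) := by
      rw [← mul_assoc]
      have : lo (-1) * lo 1 = 1 := by
        apply Subtype.ext
        show (!![1, 0; -1, 1] : Matrix (Fin 2) (Fin 2) (ZMod 5)) * !![1, 0; 1, 1] = 1
        decide
      rw [this, one_mul]
    rw [h1]
    refine Subgroup.mul_mem _ (lo_mem _) (sl_mem_of_ne _ ?_)
    have hdet := M.2
    rw [Matrix.det_fin_two, hc] at hdet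
    show ((!![1, 0; 1, 1] : Matrix (Fin 2) (Fin 2) (ZMod 5)) * M.1) 1 0 ≠ 0
    simp [Matrix.mul_apply, Fin.sum_univ_two, hc]
    intro h0
    rw [h0] at hdet
    simp at hdet
  · exact sl_mem_of_ne M hc

theorem H_mem (M : SpecialLinearGroup (Fin 2) (ZMod 5)) :
    (H M : Grp (ZMod 5) m) ∈ commutator (Grp (ZMod 5) m) := by
  have h1 : (HHom M : Grp (ZMod 5) m) ∈
      (commutator (SpecialLinearGroup (Fin 2) (ZMod 5))).map HHom :=
    Subgroup.mem_map_of_mem _ (sl_mem M)
  rw [commutator_def, Subgroup.map_commutator] at h1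
  exact Subgroup.commutator_mono le_top le_top h1

theorem mat_aux {α β : Type} (M : Matrix α β (ZMod 5)) :
    -((2 : ZMod 5) • M + (2 : ZMod 5) • M) = M := by
  ext i j
  simp only [Matrix.neg_apply, Matrix.add_apply, Matrix.smul_apply, smul_eq_mul]
  exact five_aux _

theorem X_mem (y : Matrix (Fin 2) (Fin m) (ZMod 5)) :
    (X y : Grp (ZMod 5) m) ∈ commutator (Grp (ZMod 5) m) := by
  rw [← mat_aux y, ← Hcomm_X]; exact mem_comm _ _

theorem W_mem (y : Matrix (Fin 2) (Fin m) (ZMod 5)) :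
    (W y : Grp (ZMod 5) m) ∈ commutator (Grp (ZMod 5) m) := by
  rw [← mat_aux y, ← Hcomm_W]; exact mem_comm _ _

theorem R_mem (y : Matrix (Fin 2) (Fin m) (ZMod 5)) :
    (R y : Grp (ZMod 5) m) ∈ commutator (Grp (ZMod 5) m) := by
  rw [← mat_aux y, ← Hcomm_R]; exact mem_comm _ _

theorem U_mem (y : Matrix (Fin m) (Fin 2) (ZMod 5)) :
    (U y : Grp (ZMod 5) m) ∈ commutator (Grp (ZMod 5) m) := by
  rw [← mat_aux y, ← Hcomm_U]; exact mem_comm _ _

theorem perfect (hm : 0 < m) : commutator (Grp (ZMod 5) m) = ⊤ := by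
  rw [eq_top_iff]
  intro g _
  have hg : g = (g * (H g.h)⁻¹) * H g.h := by simp
  rw [hg]
  refine Subgroup.mul_mem _ ?_ (H_mem _)
  rw [factor (g * (H g.h)⁻¹) (by simp [H])]
  exact Subgroup.mul_mem _ (Subgroup.mul_mem _ (Subgroup.mul_mem _ (Subgroup.mul_mem _
    (Subgroup.mul_mem _ (R_mem _) (S_mem hm _)) (X_mem _)) (T_mem _)) (U_mem _)) (W_mem _)

/-- The product of the component types. -/
def toProd (g : Grp (ZMod 5) m) :
    Matrix (Fin 2) (Fin 2) (ZMod 5) × Matrix (Fin 2) (Fin m) (ZMod 5) ×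
    Matrix (Fin m) (Fin 2) (ZMod 5) × Matrix (Fin 2) (Fin m) (ZMod 5) ×
    Matrix (Fin 2) (Fin 2) (ZMod 5) × Matrix (Fin m) (Fin m) (ZMod 5) ×
    Matrix (Fin 2) (Fin m) (ZMod 5) := (g.h.1, g.x, g.u, g.w, g.s, g.t, g.r)

theorem toProd_injective : Function.Injective (toProd (m := m)) := by
  intro a b hab
  simp only [toProd, Prod.mk.injEq] at hab
  obtain ⟨h1, h2, h3, h4, h5, h6, h7⟩ := hab
  ext1
  · exact Subtype.ext h1
  all_goals assumption

instance : Finite (Grp (ZMod 5) m) := Finite.of_injective _ toProd_injective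

theorem card_ge : 5 ^ (m * m) ≤ Nat.card (Grp (ZMod 5) m) := by
  have h1 : Function.Injective (fun t : Matrix (Fin m) (Fin m) (ZMod 5) => (T t : Grp (ZMod 5) m)) := by
    intro a b hab
    exact congrArg Grp.t hab
  have h2 := Nat.card_le_card_of_injective _ h1
  refine le_trans (le_of_eq ?_) h2
  rw [Nat.card_eq_fintype_card]
  show _ = Fintype.card (Fin m → Fin m → ZMod 5)
  simp [pow_mul]

/-- An upper parametrisation of the conjugates of `g`. -/
def param (g : Grp (ZMod 5) m) (p : SpecialLinearGroup (Fin 2) (ZMod 5) ×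
    Matrix (Fin m) (Fin 2) (ZMod 5) × Matrix (Fin 2) (Fin m) (ZMod 5) ×
    Matrix (Fin 2) (Fin m) (ZMod 5) × Matrix (Fin 2) (Fin 2) (ZMod 5) ×
    Matrix (Fin 2) (Fin m) (ZMod 5)) : Grp (ZMod 5) m :=
  let k : Grp (ZMod 5) m := ⟨p.1, 0, p.2.1, p.2.2.1, 0, 0, 0⟩
  let c := k * g * k⁻¹
  ⟨c.h, p.2.2.2.1, c.u, c.w, p.2.2.2.2.1, c.t, p.2.2.2.2.2⟩

theorem conj_mem_param (g k : Grp (ZMod 5) m) : k * g * k⁻¹ ∈ Set.range (param g) := by
  refine ⟨(k.h, k.u, k.w, (k * g * k⁻¹).x, (k * g * k⁻¹).s, (k * g * k⁻¹).r), ?_⟩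
  ext1
  · simp [param]
  · simp [param]
  · simp [param]
  · simp [param]
  · simp [param]
  · simp [param]
    abel
  · simp [param]

theorem card_conj_le (g : Grp (ZMod 5) m) :
    Nat.card (conjugatesOf g) ≤ 5 ^ (8 * m + 8) := by
  have hsub : conjugatesOf g ⊆ Set.range (param g) := by
    intro y hy
    rw [conjugatesOf, Set.mem_setOf_eq, isConj_iff] at hy
    obtain ⟨c, hc⟩ := hy
    rw [← hc]
    exact conj_mem_param g c
  have h1 : Nat.card (conjugatesOf g) ≤ Nat.card (Set.range (param g)) :=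
    Nat.card_mono (Set.toFinite _) hsub
  have h2 := Finite.card_range_le (param g)
  have h3 : Nat.card (SpecialLinearGroup (Fin 2) (ZMod 5)) ≤ 5 ^ 4 := by
    have := Nat.card_le_card_of_injective
      (fun M : SpecialLinearGroup (Fin 2) (ZMod 5) => M.1) Subtype.val_injective
    refine le_trans this (le_of_eq ?_)
    rw [Nat.card_eq_fintype_card]
    show Fintype.card (Fin 2 → Fin 2 → ZMod 5) = _
    simp
  have e1 : Nat.card (Matrix (Fin m) (Fin 2) (ZMod 5)) = 5 ^ (2 * m) := by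
    rw [Nat.card_eq_fintype_card]
    show Fintype.card (Fin m → Fin 2 → ZMod 5) = _
    simp [pow_mul]
  have e2 : Nat.card (Matrix (Fin 2) (Fin m) (ZMod 5)) = 5 ^ (2 * m) := by
    rw [Nat.card_eq_fintype_card]
    show Fintype.card (Fin 2 → Fin m → ZMod 5) = _
    simp [pow_mul, mul_comm 2 m]
  have e3 : Nat.card (Matrix (Fin 2) (Fin 2) (ZMod 5)) = 5 ^ 4 := by
    rw [Nat.card_eq_fintype_card]
    show Fintype.card (Fin 2 → Fin 2 → ZMod 5) = _
    simp
  refine h1.trans (h2.trans ?_)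
  rw [Nat.card_prod, Nat.card_prod, Nat.card_prod, Nat.card_prod, Nat.card_prod, e1, e2, e3]
  calc _ ≤ 5 ^ 4 * (5 ^ (2 * m) * (5 ^ (2 * m) * (5 ^ (2 * m) * (5 ^ 4 * 5 ^ (2 * m))))) :=
        Nat.mul_le_mul_right _ h3
    _ = 5 ^ (8 * m + 8) := by ring

end five

end Grp

/-- The largest size of a conjugacy class of a group. -/
noncomputable def maxClass (G : Type) [Group G] : ℕ :=
  ⨆ x : G, Nat.card (conjugatesOf x)

theorem maxClass_le (m : ℕ) : maxClass (Grp (ZMod 5) m) ≤ 5 ^ (8 * m + 8) :=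
  ciSup_le fun g => Grp.card_conj_le g

theorem main (c : ℕ) : maxClass (Grp (ZMod 5) (8 * c + 8)) ^ c <
    Nat.card (Grp (ZMod 5) (8 * c + 8)) := by
  calc maxClass (Grp (ZMod 5) (8 * c + 8)) ^ c ≤ (5 ^ (8 * (8 * c + 8) + 8)) ^ c :=
        Nat.pow_le_pow_left (maxClass_le _) c
    _ = 5 ^ ((8 * (8 * c + 8) + 8) * c) := by rw [pow_mul]
    _ < 5 ^ ((8 * c + 8) * (8 * c + 8)) := by
        apply Nat.pow_lt_pow_right (by norm_num)
        nlinarith
    _ ≤ _ := Grp.card_ge

end Pool.Agent.X233.NVL
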